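import Pool.Agent.helper69.AD.GS5

/-! Module FE7 of the project ag (MP_a29257_gt): the final assembly. -/

set_option autoImplicit false

open scoped MatrixGroups LinearAlgebra.Projectivization
open Matrix UpperHalfPlane
open Pool.Agent.helper73.AD (PS Arc Word sg AData Family PreFamily Cone bs MAIN_stmt)

namespace AdSBend

open LeafSystem

theorem FE7_coe {a b : SL(2, ℝ)} (h : PEq a b) : (a : PSL(2, ℝ)) = (b : PSL(2, ℝ)) := by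
  rcases h with rfl | rfl
  · rfl
  · refine QuotientGroup.eq.2 ?_
    have e : (-b)⁻¹ * b = -1 := by
      rw [inv_mul_eq_iff_eq_mul]
      simp
    rw [e, Subgroup.mem_center_iff]
    intro g
    simp

theorem FE7_coe_conj (g a : SL(2, ℝ)) :
    ((g * a * g⁻¹ : SL(2, ℝ)) : PSL(2, ℝ)) =
      (g : PSL(2, ℝ)) * (a : PSL(2, ℝ)) * (g : PSL(2, ℝ))⁻¹ := rfl

/-- the coordinates of the two representations of a GHMC structure -/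
theorem FE7_data (hBR1 : BR1_stmt) (hTF2 : TF2_stmt) (hTW2 : TW2_stmt)
    (hFB4 : FB4_stmt) (hPN5 : PN5_stmt) (hFE1 : FE1_stmt) (hFE4 : FE4_stmt) (hFE5 : FE5_stmt)
    (Γ : Subgroup SL(2, ℝ)) (hΓ : IsClosedSurfaceGroup Γ) (lm lp : WeightedMulticurve Γ)
    (m n : ℕ) (X : Setup Γ (Fin m) (Fin n)) (hLne : X.S.L.Nonempty) (hL'ne : X.S'.L.Nonempty)
    (hlm : ∀ x y, lm.w x y ≠ 0 → (x, y) ∈ X.S.L) (hlp : ∀ x y, lp.w x y ≠ 0 → (x, y) ∈ X.S'.L)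
    (z₀ : ℍ) (hoff : X.S'.OffPt z₀) (M : GHMC Γ) (hMp : M.PastBending lm)
    (hMf : M.FutureBending lp) :
    ∃ (Φ : PreFamily X.w) (rl rr : SL(2, ℝ) → SL(2, ℝ)),
      (∀ γ : Γ, ((rl (γ : SL(2, ℝ)) : SL(2, ℝ)) : PSL(2, ℝ)) = M.left.hol γ) ∧
      (∀ γ : Γ, ((rr (γ : SL(2, ℝ)) : SL(2, ℝ)) : PSL(2, ℝ)) = M.right.hol γ) ∧
      X.S.AdmS rl ∧ X.S.AdmS rr ∧
      X.D.Coord rr (Φ.Z 0) ∧
      X.D.Coord rl (Φ.Z (fun k => 2 * lp.w (X.D'.P k).1 (X.D'.P k).2)) ∧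
      Φ.Z (fun k => 2 * lp.w (X.D'.P k).1 (X.D'.P k).2) - Φ.Z 0 =
        -((0 : Fin m → ℝ), fun j => 2 * lm.w (X.D.P j).1 (X.D.P j).2) := by
  obtain ⟨rr, hrr, hrr'⟩ := hBR1 Γ M.right
  obtain ⟨rl, hrl, hrl'⟩ := hBR1 Γ M.left
  have hAr := hTF2 Γ hΓ X.S _ rr hrr
  have hAl := hTF2 Γ hΓ X.S _ rl hrl
  have hAr' := hTF2 Γ hΓ X.S' _ rr hrr
  have hTW : ∀ T : Fin n → ℝ, _ := fun T =>
    hTW2 Γ hΓ X.S' rr (fun p => T (X.D'.cls p)) z₀ hAr'.1.1 hAr'.1.2.1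
      (fun γ hγ p hp => by simp only [X.D'.cls_ga γ hγ p hp])
      (fun p hp => by simp only [X.D'.cls_sw p hp]) hoff
  choose A hA using fun T => (hTW T).1
  have hDef : X.Def M.right.bd rr z₀ A := ⟨hrr, hoff, hA⟩
  obtain ⟨Φ, hΦ⟩ := hFE1 Γ hΓ (Fin m) (Fin n) X _ rr z₀ A hDef
  obtain ⟨z, hz⟩ := (hFB4 Γ hΓ X.S (Fin m) X.D rr hAr).1
  -- coordinates at the origin
  have h0 : ∀ γ ∈ Γ, PEq (A 0 (γ • z₀) * rr γ) (1 * rr γ * 1⁻¹) := by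
    intro γ hγ
    have e : A 0 (γ • z₀) = 1 := by
      refine ((hTW 0).2 (A 0) (hA 0)).2.2.2.2 ?_ _ ((hPN5 Γ X.S').2.2.1 γ hγ _ hoff)
      funext p
      rfl
    left
    rw [e]
    simp
  have h0' := (hFB4 Γ hΓ X.S (Fin m) X.D rr hAr).2.2.2 (fun γ => A 0 (γ • z₀) * rr γ) 1 z h0 hz
  have hZ0 : Φ.Z 0 = z :=
    (hFB4 Γ hΓ X.S (Fin m) X.D _ h0'.1).2.1 z (Φ.Z 0) h0'.2 (hΦ 0)
  -- coordinates of the left representation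
  obtain ⟨zl, hzl⟩ := (hFB4 Γ hΓ X.S (Fin m) X.D rl hAl).1
  obtain ⟨g, hg⟩ := hFE4 Γ hΓ (Fin m) (Fin n) X hL'ne M lp hlp hMf rr rl z₀ A hrr hrl hDef
  have hg' : ∀ γ ∈ Γ, PEq
      (A (fun k => 2 * lp.w (X.D'.P k).1 (X.D'.P k).2) (γ • z₀) * rr γ)
      (g⁻¹ * rl γ * g⁻¹⁻¹) := by
    intro γ hγ
    rcases hg γ hγ with e | e
    · left
      rw [e]
      group
    · right
      rw [e]
      simp only [mul_neg, neg_mul, neg_neg]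
      group
  have hb' := (hFB4 Γ hΓ X.S (Fin m) X.D rl hAl).2.2.2
    (fun γ => A (fun k => 2 * lp.w (X.D'.P k).1 (X.D'.P k).2) (γ • z₀) * rr γ) g⁻¹ zl hg' hzl
  have hZb : Φ.Z (fun k => 2 * lp.w (X.D'.P k).1 (X.D'.P k).2) = zl :=
    (hFB4 Γ hΓ X.S (Fin m) X.D _ hb'.1).2.1 zl _ hb'.2 (hΦ _)
  -- past bending
  have h5 := hFE5 Γ hΓ (Fin m) X.S X.D X.pants hLne M lm hlm hMp rl rr hrl hrr zl hzl
  have h6 : zl + ((0 : Fin m → ℝ), fun j => 2 * lm.w (X.D.P j).1 (X.D.P j).2) = z :=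
    (hFB4 Γ hΓ X.S (Fin m) X.D rr hAr).2.1 z _ hz h5
  refine ⟨Φ, rl, rr, hrl', hrr', hAl, hAr, by rw [hZ0]; exact hz, by rw [hZb]; exact hzl, ?_⟩
  rw [hZb, hZ0, ← h6]
  abel

theorem FE7 (hPN3 : PN3_stmt) (hPN5 : PN5_stmt) (hBR1 : BR1_stmt) (hTF2 : TF2_stmt)
    (hTW2 : TW2_stmt) (hFB4 : FB4_stmt) (hFE1 : FE1_stmt) (hFE2 : FE2_stmt) (hFE3 : FE3_stmt)
    (hFE4 : FE4_stmt) (hFE5 : FE5_stmt) (hFE6 : FE6_stmt) (hMAIN : MAIN_stmt) : FE7_stmt := by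
  intro Γ hΓ lm lp hfill M M' hMp hMf hM'p hM'f
  obtain ⟨m, n, X, Y, hLne, hL'ne, hlm, hlp, hcov⟩ := hFE2 Γ hΓ lm lp hfill
  have hnm : n = m := hFE3 Γ hΓ m n ⟨X⟩ ⟨Y⟩
  obtain ⟨q, hq⟩ := hL'ne
  obtain ⟨z₀, hz₀⟩ := (hPN3 Γ hΓ X.S' q hq).1
  have hoff : X.S'.OffPt z₀ := hz₀.1
  obtain ⟨Φ, rl, rr, hl, hr, hal, har, c0, cb, hd⟩ :=
    FE7_data hBR1 hTF2 hTW2 hFB4 hPN5 hFE1 hFE4 hFE5 Γ hΓ lm lp m n X hLne ⟨q, hq⟩ hlm hlp z₀ hoff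
      M hMp hMf
  obtain ⟨Ψ, rl', rr', hl', hr', hal', har', c0', cb', hd'⟩ :=
    FE7_data hBR1 hTF2 hTW2 hFB4 hPN5 hFE1 hFE4 hFE5 Γ hΓ lm lp m n X hLne ⟨q, hq⟩ hlm hlp z₀ hoff
      M' hM'p hM'f
  let D : AData (Fin m) (Fin n) :=
    { w := X.w
      b := fun k => 2 * lp.w (X.D'.P k).1 (X.D'.P k).2
      b_nonneg := fun k => mul_nonneg zero_le_two (lp.nonneg _ _)
      fill := fun j => by
        obtain ⟨k, hk, i, hi⟩ := hcov j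
        exact ⟨k, mul_pos two_pos hk, i, hi⟩
      card := by rw [hnm] }
  have hZ : Φ.Z 0 = Ψ.Z 0 :=
    hMAIN (Fin m) (Fin n) D (Φ.toFamily D) (Ψ.toFamily D) (hd.trans hd'.symm)
  have hZb : Φ.Z (fun k => 2 * lp.w (X.D'.P k).1 (X.D'.P k).2) =
      Ψ.Z (fun k => 2 * lp.w (X.D'.P k).1 (X.D'.P k).2) := by
    have e := hd.trans hd'.symm
    rw [hZ] at e
    exact sub_left_injective e
  rw [← hZ] at c0'
  rw [← hZb] at cb'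
  obtain ⟨g, hg⟩ := hFE6 Γ hΓ (Fin m) X.S X.D X.pants hLne rl rl' _ hal hal' cb cb'
  obtain ⟨h, hh⟩ := hFE6 Γ hΓ (Fin m) X.S X.D X.pants hLne rr rr' _ har har' c0 c0'
  refine ⟨(g : PSL(2, ℝ)), (h : PSL(2, ℝ)), fun γ => ⟨?_, ?_⟩⟩
  · rw [← hl', ← hl, ← FE7_coe_conj]
    exact FE7_coe (hg γ γ.2)
  · rw [← hr', ← hr, ← FE7_coe_conj]
    exact FE7_coe (hh γ γ.2)

end AdSBend
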