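import Pool.Agent.helper69.AD.GS3
import Pool.Agent.helper30.AG.GM1

/-! Module TF1 of the project ag (MP_a29257_gt): representations of Teichmueller space are
admissible. -/

set_option autoImplicit false

open scoped MatrixGroups LinearAlgebra.Projectivization
open Matrix UpperHalfPlane

namespace AdSBend

open LeafSystem

theorem TF1_PEq_symm {g h : SL(2, ℝ)} (e : PEq g h) : PEq h g := by
  rcases e with rfl | rfl
  · exact Or.inl rfl
  · exact Or.inr (neg_neg h).symm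

theorem TF1_PEq_trans {g h k : SL(2, ℝ)} (e : PEq g h) (e' : PEq h k) : PEq g k := by
  rcases e with rfl | rfl <;> rcases e' with rfl | rfl
  · exact Or.inl rfl
  · exact Or.inr rfl
  · exact Or.inr rfl
  · exact Or.inl (neg_neg k)

theorem TF1_PEq_mul {g h g' h' : SL(2, ℝ)} (e : PEq g h) (e' : PEq g' h') :
    PEq (g * g') (h * h') := by
  rcases e with rfl | rfl <;> rcases e' with rfl | rfl
  · exact Or.inl rfl
  · right; simp
  · right; simp
  · left; simp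

theorem TF1_one {Γ : Subgroup SL(2, ℝ)} {r : SL(2, ℝ) → SL(2, ℝ)} (h : IsPRep Γ r) :
    PEq (r 1) 1 := by
  have := h 1 Γ.one_mem 1 Γ.one_mem 1 Γ.one_mem (Or.inl (by simp))
  rcases this with e | e
  · left
    exact (mul_eq_left.1 e.symm)
  · right
    have e2 : r 1 * (-r 1) = r 1 * 1 := by rw [mul_neg, ← e, mul_one]
    have e3 := mul_left_cancel e2
    exact neg_eq_iff_eq_neg.1 e3

theorem TF1 (hGM1 : GM1_stmt) (h8 : BD8_stmt) (h10 : BD10_stmt) (h11 : BD11_stmt) :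
    TF1_stmt := by
  intro Γ hΓ S f r hfr
  obtain ⟨hcyc, -, hfac, -, hatt, hrep⟩ := h11 Γ f r hfr
  have hgen : ∀ p ∈ S.L, gen Γ p ∈ Γ ∧ Attracts (gen Γ p) p := fun p hp =>
    ⟨(hGM1 Γ hΓ p (S.closed p hp)).1, (hGM1 Γ hΓ p (S.closed p hp)).2.1⟩
  refine ⟨hrep, ?_, ?_⟩
  · intro p hp
    exact (h8.2.2.2.1 _).2 ⟨_, hatt _ (hgen p hp).1 p (hgen p hp).2⟩
  · rintro p q s ⟨h1, h2, h3, h4, h5⟩
    have hp := hgen p h1.1
    have hq := hgen q h1.2.1
    have hs := hgen s h2.2.1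
    refine h10 (r (gen Γ p)) (r (gen Γ q)) (r (gen Γ s)) (f p.1, f p.2) (f q.1, f q.2)
      (f s.1, f s.2) (hatt _ hp.1 p hp.2) (hatt _ hq.1 q hq.2) (hatt _ hs.1 s hs.2)
      ((hfac p q).2 h1.2.2.1) ((hfac q s).2 h2.2.2.1) ((hfac s p).2 h3.2.2.1)
      ((hcyc _ _ _).2 h4) ?_
    have e1 : PEq (r (gen Γ p * gen Γ q)) (r (gen Γ p) * r (gen Γ q)) :=
      hrep _ hp.1 _ hq.1 _ (Γ.mul_mem hp.1 hq.1) (Or.inl rfl)
    have e2 : PEq (r 1) (r (gen Γ p * gen Γ q) * r (gen Γ s)) :=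
      hrep _ (Γ.mul_mem hp.1 hq.1) _ hs.1 _ Γ.one_mem (TF1_PEq_symm h5)
    have e3 : PEq (r (gen Γ p * gen Γ q) * r (gen Γ s))
        (r (gen Γ p) * r (gen Γ q) * r (gen Γ s)) := TF1_PEq_mul e1 (Or.inl rfl)
    exact TF1_PEq_trans (TF1_PEq_symm e3) (TF1_PEq_trans (TF1_PEq_symm e2) (TF1_one hrep))

end AdSBend
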