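import Pool.Agent.helper69.AD.GS5

/-! Module TF2 of the project ag (MP_a29257_gt): representations of Teichmueller space are
admissible, with orientation. -/

set_option autoImplicit false

open scoped MatrixGroups LinearAlgebra.Projectivization
open Matrix UpperHalfPlane

namespace AdSBend

open LeafSystem

theorem TF2 (hGM1 : GM1_stmt) (h11 : BD11_stmt) (hTF1 : TF1_stmt) (hFA2 : FA2_stmt) :
    TF2_stmt := by
  intro Γ hΓ S f r hfr
  obtain ⟨-, -, hfac, -, hatt, -⟩ := h11 Γ f r hfr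
  refine ⟨hTF1 Γ hΓ S f r hfr, ?_⟩
  intro p q s hH
  have hg : ∀ p ∈ S.L, gen Γ p ∈ Γ ∧ Attracts (gen Γ p) p := fun p hp =>
    ⟨(hGM1 Γ hΓ p (S.closed p hp)).1, (hGM1 Γ hΓ p (S.closed p hp)).2.1⟩
  have hp := hg p hH.1.1
  have hq := hg q hH.1.2.1
  exact (hFA2.2.2.2.1 _ _ _ _ (hatt _ hp.1 p hp.2) (hatt _ hq.1 q hq.2)).2
    ((hfac p q).2 hH.1.2.2.1)

end AdSBend
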