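import Pool.Agent.helper69.AD.GS4
import Pool.Agent.helper18.AG.BD8
import Pool.Agent.helper30.AG.GM1

/-! Module CLJ of the project ag (MP_a29257_gt): the shortest non-peripheral element of the
stabiliser of a plaque of a maximal leaf system splits into two peripheral ones. -/

set_option autoImplicit false

open scoped MatrixGroups LinearAlgebra.Projectivization
open Matrix UpperHalfPlane

namespace AdSBend

open LeafSystem

theorem CLJ_not_linked (h4 : BD4_stmt) (x y : Bd) : ¬ Linked x y x y := by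
  rintro (⟨h, -⟩ | ⟨h, -⟩)
  · exact (h4.1 _ _ _ h).1 rfl
  · exact (h4.1 _ _ _ h).2.1 rfl

theorem CLJ_trc_inv (g : SL(2, ℝ)) : trc g⁻¹ = trc g := by
  rw [trc, trc, Matrix.SpecialLinearGroup.SL2_inv_expl]
  simp
  ring

/-- an element of `Γ` in the stabiliser of the plaque, nontrivial and shorter than the shortest
non-peripheral one, is peripheral -/
theorem CLJ_short (hCLH : CLH_stmt) (Γ : Subgroup SL(2, ℝ))
    (hΓ : IsClosedSurfaceGroup Γ) (S : LeafSystem Γ) (z₀ : ℍ) (hz : S.OffPt z₀)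
    (γ : SL(2, ℝ)) (hγ : S.IsMinEP z₀ γ) (g : SL(2, ℝ)) (hg : g ∈ Γ)
    (hs : S.SamePl z₀ (g • z₀)) (h1 : ¬ PEq g 1) (ht : |trc g| < |trc γ|) :
    ∃ p, S.Near p z₀ ∧ p ∈ S.L ∧ (Attracts g p ∨ Attracts g (sw p)) := by
  by_cases hE : ∀ p, Attracts g p → p ∉ S.L
  · exact absurd (hγ.2 g ⟨hg, hs, h1, hE⟩) (not_le.2 ht)
  · push Not at hE
    obtain ⟨p, hp, hpL⟩ := hE
    rcases (hCLH Γ hΓ S z₀ hz g hg hs p hp).2.1 hpL with h | h
    · exact ⟨p, h, hpL, Or.inl hp⟩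
    · exact ⟨sw p, h, S.swap p hpL, Or.inr hp⟩

theorem CLJ (h4 : BD4_stmt) (h8 : BD8_stmt) (h5 : PN5_stmt) (h6 : GM6_stmt) (hCLE : CLE_stmt)
    (hCLH : CLH_stmt) : CLJ_stmt := by
  intro Γ hΓ S z₀ hmax hz γ hγ
  obtain ⟨hγΓ, hγs, hγ1, hγL⟩ := hγ.1
  obtain ⟨p, hp, hpc⟩ := h6 Γ hΓ γ hγΓ hγ1
  obtain ⟨hH1, -, hH3⟩ := hCLH Γ hΓ S z₀ hz γ hγΓ hγs p hp
  -- the axis is not simple
  have hns : ¬ IsSimpleClosedGeodesic Γ p.1 p.2 := fun h => hγL p hp (hmax p h hH1)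
  obtain ⟨h, hh, hl⟩ : ∃ h ∈ Γ, Linked p.1 p.2 (h • p.1) (h • p.2) := by
    by_contra hcon
    push Not at hcon
    exact hns ⟨hpc, hcon⟩
  have hhs := hH3 h hh hl
  -- `h` does not fix the axis
  have hkey : ¬ (h • p.1 = p.1 ∧ h • p.2 = p.2) := by
    rintro ⟨e1, e2⟩
    rw [e1, e2] at hl
    exact CLJ_not_linked h4 _ _ hl
  -- powers of `γ` fix the axis
  have hpow : ∀ n : ℤ, (γ ^ n) • p.1 = p.1 ∧ (γ ^ n) • p.2 = p.2 := by
    intro n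
    have e1 : γ ∈ MulAction.stabilizer SL(2, ℝ) p.1 := hp.2.1
    have e2 : γ ∈ MulAction.stabilizer SL(2, ℝ) p.2 := hp.2.2.1
    exact ⟨Subgroup.zpow_mem _ e1 n, Subgroup.zpow_mem _ e2 n⟩
  have hfree : ∀ (n : ℤ) (z : ℍ), (γ ^ n * h⁻¹) • z ≠ z := by
    intro n z hnz
    have hm : γ ^ n * h⁻¹ ∈ Γ := Γ.mul_mem (Γ.zpow_mem hγΓ n) (Γ.inv_mem hh)
    have e : PEq (γ ^ n * h⁻¹) 1 := hΓ.free _ hm z hnz
    have e' : PEq h (γ ^ n) := by
      rcases e with e | e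
      · left
        rw [mul_inv_eq_one] at e
        exact e.symm
      · right
        have : γ ^ n = -h := by
          rw [mul_inv_eq_iff_eq_mul] at e
          rw [e]; simp
        rw [this, neg_neg]
    exact hkey ⟨by rw [BD8_peq_smul e']; exact (hpow n).1,
      by rw [BD8_peq_smul e']; exact (hpow n).2⟩
  obtain ⟨n, hn1, hn2, hn3⟩ := hCLE γ h p hp hl hfree
  set b : SL(2, ℝ) := γ ^ n * h⁻¹ with hb
  have hbΓ : b ∈ Γ := Γ.mul_mem (Γ.zpow_mem hγΓ n) (Γ.inv_mem hh)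
  have hhb : h = b⁻¹ * γ ^ n := by rw [hb]; group
  -- if `b` fixes the axis we are done
  have hbfix : ¬ (b • p.1 = p.1 ∧ b • p.2 = p.2) := by
    rintro ⟨e1, e2⟩
    apply hkey
    rw [hhb, mul_smul, mul_smul, (hpow n).1, (hpow n).2]
    exact ⟨by rw [inv_smul_eq_iff, e1], by rw [inv_smul_eq_iff, e2]⟩
  -- stabiliser of the plaque
  obtain ⟨s1, s2, s3, s4, -⟩ := h5 Γ S
  have hmul : ∀ g g' : SL(2, ℝ), g ∈ Γ → g' ∈ Γ → S.SamePl z₀ (g • z₀) →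
      S.SamePl z₀ (g' • z₀) → S.SamePl z₀ ((g * g') • z₀) := by
    intro g g' hg hg' e e'
    rw [mul_smul]
    exact s2 z₀ (g • z₀) (g • g' • z₀) hz (s3 g hg _ hz) (s3 g hg _ (s3 g' hg' _ hz)) e
      (s4 g hg _ _ e')
  have hinv : ∀ g : SL(2, ℝ), g ∈ Γ → S.SamePl z₀ (g • z₀) → S.SamePl z₀ (g⁻¹ • z₀) := by
    intro g hg e
    have := s4 g⁻¹ (Γ.inv_mem hg) _ _ e
    rw [inv_smul_smul] at this
    exact s1 _ _ this
  have hpows : ∀ m : ℕ, S.SamePl z₀ ((γ ^ m) • z₀) := by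
    intro m
    induction m with
    | zero =>
      rw [pow_zero, one_smul]
      intro q _ hq
      unfold SepPts at hq
      nlinarith [mul_self_nonneg (side z₀ q.1 q.2)]
    | succ m ih =>
      rw [pow_succ]
      exact hmul _ _ (Γ.pow_mem hγΓ m) hγΓ ih hγs
  have hzpow : S.SamePl z₀ ((γ ^ n) • z₀) := by
    rcases n.eq_nat_or_neg with ⟨m, hm | hm⟩
    · rw [hm, zpow_natCast]; exact hpows m
    · rw [hm, _root_.zpow_neg, zpow_natCast]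
      exact hinv _ (Γ.pow_mem hγΓ m) (hpows m)
  have hbs : S.SamePl z₀ (b • z₀) :=
    hmul _ _ (Γ.zpow_mem hγΓ n) (Γ.inv_mem hh) hzpow (hinv h hh hhs)
  -- the elements
  have haΓ : b⁻¹ ∈ Γ := Γ.inv_mem hbΓ
  have hxΓ : b⁻¹ * γ ∈ Γ := Γ.mul_mem haΓ hγΓ
  have hyΓ : (b⁻¹ * (b⁻¹ * γ))⁻¹ ∈ Γ := Γ.inv_mem (Γ.mul_mem haΓ hxΓ)
  have has := hinv b hbΓ hbs
  have hxs := hmul _ _ haΓ hγΓ has hγs
  have hys := hinv _ (Γ.mul_mem haΓ hxΓ) (hmul _ _ haΓ hxΓ has hxs)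
  have hty : trc (b⁻¹ * (b⁻¹ * γ))⁻¹ = trc (b⁻¹ * b⁻¹ * γ) := by
    rw [CLJ_trc_inv, mul_assoc]
  -- nontriviality
  have ha1 : ¬ PEq b⁻¹ 1 := by
    intro e
    apply hbfix
    have e1 := BD8_peq_smul e p.1
    have e2 := BD8_peq_smul e p.2
    rw [one_smul, inv_smul_eq_iff] at e1 e2
    exact ⟨e1.symm, e2.symm⟩
  have hx1 : ¬ PEq (b⁻¹ * γ) 1 := by
    intro e
    apply hbfix
    have e1 := BD8_peq_smul e p.1
    have e2 := BD8_peq_smul e p.2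
    rw [one_smul, mul_smul, inv_smul_eq_iff] at e1 e2
    exact ⟨by rw [← e1]; exact hp.2.1, by rw [← e2]; exact hp.2.2.1⟩
  have hy1 : ¬ PEq (b⁻¹ * (b⁻¹ * γ))⁻¹ 1 := by
    intro e
    have e' : PEq γ (b * b) := by
      rcases e with e | e
      · left
        rw [inv_eq_one] at e
        calc γ = b * b * (b⁻¹ * (b⁻¹ * γ)) := by group
          _ = b * b := by rw [e, mul_one]
      · right
        have e2 : b⁻¹ * (b⁻¹ * γ) = -1 := by
          rw [inv_eq_iff_eq_inv] at e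
          rw [e]
          rw [inv_eq_iff_mul_eq_one]
          simp
        calc γ = b * b * (b⁻¹ * (b⁻¹ * γ)) := by group
          _ = -(b * b) := by rw [e2]; simp
    have hcomm : b * γ * b⁻¹ = γ := by
      rcases e' with e' | e' <;> rw [e']
      · group
      · simp only [mul_neg, neg_mul]
        group
    have hatt := h8.2.2.2.2.2.1 γ b p hp
    rw [hcomm] at hatt
    have hpp := h8.2.2.1 γ _ p hatt hp
    exact hbfix ⟨congrArg Prod.fst hpp, congrArg Prod.snd hpp⟩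
  refine ⟨b⁻¹, b⁻¹ * γ, (b⁻¹ * (b⁻¹ * γ))⁻¹, haΓ, hxΓ, hyΓ, mul_inv_cancel _, by group,
    by rw [hty]; exact hn3, has, hxs, hys, ?_, ?_, ?_⟩
  · exact CLJ_short hCLH Γ hΓ S z₀ hz γ hγ _ haΓ has ha1 (by rw [CLJ_trc_inv]; exact hn1)
  · exact CLJ_short hCLH Γ hΓ S z₀ hz γ hγ _ hxΓ hxs hx1 hn2
  · exact CLJ_short hCLH Γ hΓ S z₀ hz γ hγ _ hyΓ hys hy1 (by rw [hty]; exact hn3)

end AdSBend
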